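import Pool.Agent.TH84.UA.Count
import Pool.Agent.TH986.UA_KRAFT
import Pool.Agent.TH626.UA_CHAIN
import Pool.Agent.TH999.UA_BINOM
import Pool.Agent.TH959.UA_WPOS
import Pool.Agent.TH55.UA_GREEDY

/-!
# Almost all union-closed families: the theorem
-/

set_option autoImplicit false

namespace Pool.Agent.TH84.UA

open Finset Filter
open scoped Classical

theorem almost : P_ALMOST :=
  t_ALMOST Pool.Agent.TH986.UA_KRAFT.t_KRAFT Pool.Agent.TH55.UA_GREEDY.t_GREEDY
    Pool.Agent.TH626.UA_CHAIN.t_CHAIN Pool.Agent.TH999.UA_BINOM.t_TAIL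
    Pool.Agent.TH999.UA_BINOM.t_MID Pool.Agent.TH999.UA_BINOM.t_THETA
    (Pool.Agent.TH959.UA_WPOS.t_WPOS Pool.Agent.TH999.UA_BINOM.t_TAIL
      Pool.Agent.TH999.UA_BINOM.t_MID) Pool.Agent.TH999.UA_BINOM.t_NUM

/-- the elements in more than half of the members -/
noncomputable def ab {n : ℕ} (F : Finset (Finset (Fin n))) : Finset (Fin n) :=
  univ.filter (fun x => F.card < 2 * (F.filter (fun A => x ∈ A)).card)

/-- large average size gives many elements in more than half of the members -/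
lemma ab_of_W {n : ℕ} (hn : 0 < n) (F : Finset (Finset (Fin n)))
    (h : (n : ℝ) * (n.choose (n / 2) : ℝ) ≤ 10 * ∑ A ∈ F, (2 * (A.card : ℝ) - n)) :
    Real.sqrt n ≤ 20 * ((ab F).card : ℝ) := by
  have hnr : (0 : ℝ) < n := by exact_mod_cast hn
  have h1 : ∑ A ∈ F, (2 * (A.card : ℝ) - n) =
      ∑ x : Fin n, (2 * ((F.filter (fun A => x ∈ A)).card : ℝ) - F.card) := by
    rw [Finset.sum_sub_distrib, Finset.sum_sub_distrib, Finset.sum_const, Finset.sum_const,
      Finset.card_univ, Fintype.card_fin, nsmul_eq_mul, nsmul_eq_mul, mul_comm (n : ℝ)]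
    congr 1
    rw [← Finset.mul_sum, ← Finset.mul_sum]
    congr 1
    have h2 : ∀ A : Finset (Fin n), (A.card : ℝ) = ∑ x : Fin n, if x ∈ A then (1 : ℝ) else 0 := by
      intro A
      rw [Finset.sum_ite_mem, Finset.univ_inter, Finset.sum_const, nsmul_eq_mul, mul_one]
    simp_rw [h2]
    rw [Finset.sum_comm]
    refine Finset.sum_congr rfl fun x _ => ?_
    rw [← Finset.sum_filter, Finset.sum_const, nsmul_eq_mul, mul_one]
  have h3 : ∑ x : Fin n, (2 * ((F.filter (fun A => x ∈ A)).card : ℝ) - F.card) ≤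
      ∑ x ∈ ab F, (2 : ℝ) ^ n := by
    rw [← Finset.sum_filter_add_sum_filter_not (s := (univ : Finset (Fin n)))
      (fun x => F.card < 2 * (F.filter (fun A => x ∈ A)).card)]
    have h4 : ∑ x ∈ univ.filter (fun x : Fin n => ¬ F.card < 2 * (F.filter (fun A => x ∈ A)).card),
        (2 * ((F.filter (fun A => x ∈ A)).card : ℝ) - F.card) ≤ 0 := by
      refine Finset.sum_nonpos fun x hx => ?_
      rw [Finset.mem_filter, not_lt] at hx
      have : (2 : ℝ) * ((F.filter (fun A => x ∈ A)).card : ℝ) ≤ F.card := by exact_mod_cast hx.2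
      linarith
    have h5 : ∑ x ∈ univ.filter (fun x : Fin n => F.card < 2 * (F.filter (fun A => x ∈ A)).card),
        (2 * ((F.filter (fun A => x ∈ A)).card : ℝ) - F.card) ≤ ∑ x ∈ ab F, (2 : ℝ) ^ n := by
      unfold ab
      refine Finset.sum_le_sum fun x _ => ?_
      have h6 : (F.filter (fun A => x ∈ A)).card ≤ F.card := Finset.card_filter_le _ _
      have h7 : F.card ≤ 2 ^ n := by
        refine (Finset.card_le_univ _).trans ?_
        rw [Fintype.card_finset, Fintype.card_fin]
      have h6' : ((F.filter (fun A => x ∈ A)).card : ℝ) ≤ F.card := by exact_mod_cast h6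
      have h7' : (F.card : ℝ) ≤ 2 ^ n := by exact_mod_cast h7
      linarith
    linarith
  rw [Finset.sum_const, nsmul_eq_mul] at h3
  rw [h1] at h
  have hmid := Pool.Agent.TH999.UA_BINOM.t_MID n hn
  set N0 : ℝ := (n.choose (n / 2) : ℝ) with hN0
  have hN0p : 0 < N0 := by
    rw [hN0]
    exact_mod_cast Nat.choose_pos (Nat.div_le_self n 2)
  have hsq : Real.sqrt n * Real.sqrt n = n := Real.mul_self_sqrt hnr.le
  have hsp : 0 < Real.sqrt n := Real.sqrt_pos.mpr hnr
  have h8 : (n : ℝ) * N0 ≤ 10 * (((ab F).card : ℝ) * (2 * Real.sqrt n * N0)) := by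
    have h9 : ((ab F).card : ℝ) * 2 ^ n ≤ ((ab F).card : ℝ) * (2 * Real.sqrt n * N0) :=
      mul_le_mul_of_nonneg_left hmid (by positivity)
    linarith
  have h10 : (Real.sqrt n * N0) * Real.sqrt n ≤ (Real.sqrt n * N0) * (20 * ((ab F).card : ℝ)) := by
    calc (Real.sqrt n * N0) * Real.sqrt n = (Real.sqrt n * Real.sqrt n) * N0 := by ring
      _ = n * N0 := by rw [hsq]
      _ ≤ _ := h8
      _ = _ := by ring
  exact le_of_mul_le_mul_left h10 (by positivity)

/-- many separating union-closed families -/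
lemma many_sep {n : ℕ} (hn : 4 ≤ n) :
    2 ^ n.choose (n / 2) ≤ (univ.filter (fun F : Finset (Finset (Fin n)) =>
      (∀ A ∈ F, ∀ B ∈ F, A ∪ B ∈ F) ∧ ∀ x y, x ≠ y → ∃ A ∈ F, ¬ (x ∈ A ↔ y ∈ A))).card := by
  set L : Finset (Finset (Fin n)) := powersetCard (n / 2) univ with hL
  have hLc : L.powerset.card = 2 ^ n.choose (n / 2) := by
    rw [card_powerset, hL, card_powersetCard, card_univ, Fintype.card_fin]
  rw [← hLc]
  set U : Finset (Finset (Fin n)) := univ.filter (fun A => n / 2 < A.card) with hU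
  apply Finset.card_le_card_of_injOn (fun G => G ∪ U)
  · intro G hG
    have hGL : G ⊆ L := by simpa using hG
    simp only [coe_filter, mem_univ, true_and, Set.mem_ofPred_eq]
    constructor
    · intro A hA B hB
      have hcard : ∀ X ∈ G ∪ U, n / 2 ≤ X.card := by
        intro X hX
        rcases mem_union.1 hX with h | h
        · have := hGL h
          rw [hL, mem_powersetCard] at this
          exact this.2.ge
        · rw [hU, mem_filter] at h
          exact h.2.le
      rcases lt_or_ge (n / 2) (A ∪ B).card with h | h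
      · apply mem_union_right
        rw [hU, mem_filter]
        exact ⟨mem_univ _, h⟩
      · have h1 : A = A ∪ B := eq_of_subset_of_card_le subset_union_left (h.trans (hcard A hA))
        rw [← h1]
        exact hA
    · intro x y hxy
      refine ⟨univ.erase y, ?_, ?_⟩
      · apply mem_union_right
        rw [hU, mem_filter, Finset.card_erase_of_mem (mem_univ _), card_univ, Fintype.card_fin]
        exact ⟨mem_univ _, by omega⟩
      · simp [hxy]
  · intro G hG G' hG' h
    have hGL : G ⊆ L := by simpa using hG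
    have hGL' : G' ⊆ L := by simpa using hG'
    have hdisj : ∀ X ∈ L, X ∉ U := by
      intro X hX hXU
      rw [hL, mem_powersetCard] at hX
      rw [hU, mem_filter] at hXU
      omega
    simp only at h
    ext X
    constructor
    · intro hX
      have : X ∈ G' ∪ U := by rw [← h]; exact mem_union_left _ hX
      rcases mem_union.1 this with h1 | h1
      · exact h1
      · exact absurd h1 (hdisj X (hGL hX))
    · intro hX
      have : X ∈ G ∪ U := by rw [h]; exact mem_union_left _ hX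
      rcases mem_union.1 this with h1 | h1
      · exact h1
      · exact absurd h1 (hdisj X (hGL' hX))

/-- **main theorem** -/
theorem main : ∃ c : ℝ, 0 < c ∧ ∃ N : ℕ, ∀ n : ℕ, N ≤ n →
    ((univ.filter (fun F : Finset (Finset (Fin n)) => (∀ A ∈ F, ∀ B ∈ F, A ∪ B ∈ F) ∧
      20 * ((univ.filter (fun x : Fin n =>
        F.card < 2 * (F.filter (fun A => x ∈ A)).card)).card : ℝ) < Real.sqrt n)).card : ℝ) ≤
    (2 : ℝ) ^ (-(c * (n.choose (n / 2) : ℝ))) *
      ((univ.filter (fun F : Finset (Finset (Fin n)) => (∀ A ∈ F, ∀ B ∈ F, A ∪ B ∈ F) ∧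
        ∀ x y : Fin n, x ≠ y → ∃ A ∈ F, ¬ (x ∈ A ↔ y ∈ A))).card : ℝ) := by
  obtain ⟨c, hc, hal⟩ := almost
  refine ⟨c, hc, ?_⟩
  rw [eventually_atTop] at hal
  obtain ⟨N, hN⟩ := hal
  refine ⟨max N 4, fun n hn => ?_⟩
  have hn4 : 4 ≤ n := (le_max_right _ _).trans hn
  have h1 := hN n ((le_max_left _ _).trans hn)
  have hmany := many_sep hn4
  set N0 : ℝ := (n.choose (n / 2) : ℝ) with hN0
  have hmany' : (2 : ℝ) ^ N0 ≤ ((univ.filter (fun F : Finset (Finset (Fin n)) =>
      (∀ A ∈ F, ∀ B ∈ F, A ∪ B ∈ F) ∧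
        ∀ x y : Fin n, x ≠ y → ∃ A ∈ F, ¬ (x ∈ A ↔ y ∈ A))).card : ℝ) := by
    rw [hN0, Real.rpow_natCast]
    exact_mod_cast hmany
  refine le_trans ?_ (mul_le_mul_of_nonneg_left hmany' (by positivity))
  rw [← Real.rpow_add (by norm_num)]
  have e : -(c * N0) + N0 = (1 - c) * N0 := by ring
  rw [e]
  refine le_trans ?_ h1
  have h2 : (univ.filter (fun F : Finset (Finset (Fin n)) => (∀ A ∈ F, ∀ B ∈ F, A ∪ B ∈ F) ∧
      20 * ((univ.filter (fun x : Fin n =>
        F.card < 2 * (F.filter (fun A => x ∈ A)).card)).card : ℝ) < Real.sqrt n)) ⊆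
      univ.filter (fun F : Finset (Finset (Fin n)) => UC F ∧
    10 * ∑ A ∈ F, (2 * (A.card : ℝ) - n) < (n : ℝ) * N0) := by
    intro F hF
    rw [Finset.mem_filter] at hF ⊢
    refine ⟨Finset.mem_univ _, hF.2.1, ?_⟩
    by_contra hcon
    push Not at hcon
    have := ab_of_W (by omega) F hcon
    unfold ab at this
    linarith [hF.2.2]
  exact_mod_cast Finset.card_le_card h2

end Pool.Agent.TH84.UA
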