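import Pool.Agent.TH84.UA.Plan
import Pool.Agent.TH84.UC.Asy

/-!
# Almost all union-closed families: assembly
-/

set_option autoImplicit false

namespace Pool.Agent.TH84.UA

open Finset Filter
open scoped Classical

/-! ### Elementary facts -/

lemma sup_mem {n : ℕ} {F : Finset (Finset (Fin n))} (hF : UC F) {G : Finset (Finset (Fin n))}
    (hG : G ⊆ F) (hne : G.Nonempty) : G.sup id ∈ F := by
  rw [← Finset.sup'_eq_sup hne]
  have h := Finset.sup'_mem (s := (F : Set (Finset (Fin n)))) (fun A hA B hB => by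
    have := hF A (by simpa using hA) B (by simpa using hB)
    simpa using this) G hne id (fun A hA => by simpa using hG hA)
  simpa using h

/-- a nonempty set without uncovered elements is a member -/
lemma mem_of_covered {n : ℕ} {F : Finset (Finset (Fin n))} (hF : UC F) {D : Finset (Fin n)}
    (hD : D.Nonempty) (h : ¬ ∃ y, Unc F D y) : D ∈ F := by
  have h' : ∀ y ∈ D, ∃ A ∈ F, A ⊂ D ∧ y ∈ A := by
    intro y hy
    by_contra hcon
    apply h
    refine ⟨y, hy, fun A hA hAD hyA => hcon ⟨A, hA, hAD, hyA⟩⟩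
  set G := F.filter (fun A => A ⊂ D) with hG
  have hGne : G.Nonempty := by
    obtain ⟨y, hy⟩ := hD
    obtain ⟨A, hA, hAD, -⟩ := h' y hy
    exact ⟨A, by rw [hG, Finset.mem_filter]; exact ⟨hA, hAD⟩⟩
  have hsup := sup_mem hF (Finset.filter_subset _ F) hGne
  have : G.sup id = D := by
    ext y
    rw [Finset.mem_sup]
    constructor
    · rintro ⟨A, hA, hyA⟩
      rw [hG, Finset.mem_filter] at hA
      exact hA.2.1 hyA
    · intro hy
      obtain ⟨A, hA, hAD, hyA⟩ := h' y hy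
      exact ⟨A, by rw [hG, Finset.mem_filter]; exact ⟨hA, hAD⟩, hyA⟩
  rwa [this] at hsup

lemma not_mem_of_bl {n : ℕ} {F : Finset (Finset (Fin n))} {S : Finset (Finset (Fin n) × Fin n)}
    (hS : ∀ z ∈ S, Unc F z.1 z.2) : ∀ A ∈ F, A ∉ bl S := by
  intro A hA hb
  unfold bl at hb
  rw [Finset.mem_filter] at hb
  obtain ⟨-, z, hz, h1, h2⟩ := hb
  exact (hS z hz).2 A hA h1 h2

lemma ell_le {n : ℕ} (hn : 0 < n) (h : 2 ≤ Real.log n) : (ell n : ℝ) ≤ 2 * Real.log n := by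
  have h1 : 2 ^ Nat.log 2 n ≤ n := Nat.pow_log_le_self 2 hn.ne'
  have h2 : (Nat.log 2 n : ℝ) * Real.log 2 ≤ Real.log n := by
    rw [← Real.log_pow]
    refine Real.log_le_log (by positivity) ?_
    exact_mod_cast h1
  have h3 := Real.log_two_gt_d9
  unfold ell
  push_cast
  have h4 : (0 : ℝ) ≤ (Nat.log 2 n : ℝ) := by positivity
  nlinarith

lemma log_le_ell {n : ℕ} (hn : 0 < n) : Real.log n ≤ ell n := by
  have h1 : n < 2 ^ ell n := Nat.lt_pow_succ_log_self (by norm_num) n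
  have h1' : (n : ℝ) ≤ 2 ^ ell n := by exact_mod_cast h1.le
  have h2 : Real.log n ≤ ell n * Real.log 2 := by
    rw [← Real.log_pow]
    exact Real.log_le_log (by exact_mod_cast hn) h1'
  have h3 := Real.log_two_lt_d9
  have h4 : (0 : ℝ) ≤ (ell n : ℝ) := by positivity
  nlinarith

/-- `log n` squared is small compared with the square root of `n` -/
lemma ev_ell (K : ℝ) (hK : 0 < K) : ∀ᶠ n : ℕ in atTop, K * (ell n : ℝ) ^ 2 ≤ (Nat.sqrt n : ℝ) := by
  filter_upwards [Pool.Agent.TH84.UC.ev_rpow_log (c := 1 / 8) (ε := 1) (by norm_num) (by norm_num),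
    Pool.Agent.TH84.UC.ev_pow (1 / 4) (by norm_num) (8 * K), Pool.Agent.TH84.UC.ev_log 2,
    eventually_gt_atTop 0, Pool.Agent.TH84.UC.ev_pow (1 / 4) (by norm_num) 2]
    with n h1 h2 h3 h4 h5
  have hn : (0 : ℝ) < n := by exact_mod_cast h4
  set q8 := (n : ℝ) ^ (1 / 8 : ℝ) with hq8
  have hq8p : 0 < q8 := Real.rpow_pos_of_pos hn _
  have h6 : Real.log n ≤ q8 := by
    rw [Real.rpow_neg hn.le] at h1
    have h5 := mul_le_mul_of_nonneg_left h1 hq8p.le
    rw [← mul_assoc, mul_inv_cancel₀ hq8p.ne', one_mul, mul_one] at h5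
    exact h5
  have e4 : (n : ℝ) ^ (1 / 4 : ℝ) = q8 ^ 2 := by
    rw [hq8, ← Real.rpow_natCast, ← Real.rpow_mul hn.le]
    norm_num
  have e2 : Real.sqrt n = q8 ^ 4 := by
    rw [hq8, Real.sqrt_eq_rpow, ← Real.rpow_natCast, ← Real.rpow_mul hn.le]
    norm_num
  rw [e4] at h2 h5
  have hell := ell_le h4 h3
  have hell2 : (ell n : ℝ) ≤ 2 * q8 := by linarith
  have hell0 : (0 : ℝ) ≤ (ell n : ℝ) := by positivity
  have hsq : Real.sqrt n ≤ (Nat.sqrt n : ℝ) + 1 := by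
    rw [Real.sqrt_le_left (by positivity)]
    have := Nat.lt_succ_sqrt n
    have : (n : ℝ) < ((Nat.sqrt n + 1) * (Nat.sqrt n + 1) : ℕ) := by exact_mod_cast this
    push_cast at this
    nlinarith
  have h7 : K * (ell n : ℝ) ^ 2 ≤ K * (2 * q8) ^ 2 := by
    refine mul_le_mul_of_nonneg_left ?_ hK.le
    exact pow_le_pow_left₀ hell0 hell2 2
  have h8 : K * (2 * q8) ^ 2 ≤ q8 ^ 4 / 2 := by nlinarith [sq_nonneg q8]
  have h9 : (1 : ℝ) ≤ q8 ^ 4 / 2 := by nlinarith [sq_nonneg q8]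
  linarith

/-- the sizes of the parameters -/
lemma ev_par : ∀ᶠ n : ℕ in atTop,
    2000 * (2 * (Nat.sqrt n * ell n) + Nat.sqrt n * ell n ^ 2 + 2 * (Nat.sqrt n / 5) + 2) ≤ n / 2 := by
  filter_upwards [ev_ell 100000 (by norm_num), eventually_gt_atTop 1] with n h1 h2
  have h1' : 100000 * ell n ^ 2 ≤ Nat.sqrt n := by exact_mod_cast h1
  have h3 : Nat.sqrt n * Nat.sqrt n ≤ n := Nat.sqrt_le n
  have hl : 1 ≤ ell n := by unfold ell; omega
  have hl2 : ell n ≤ ell n ^ 2 := by nlinarith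
  set q := Nat.sqrt n
  set l := ell n
  have h4 : q * l ≤ q * l ^ 2 := Nat.mul_le_mul_left _ hl2
  have h5 : q ≤ q * l ^ 2 := Nat.le_mul_of_pos_right _ (by positivity)
  have h6 : q * (100000 * l ^ 2) ≤ q * q := Nat.mul_le_mul_left _ h1'
  have h7 : q * (100000 * l ^ 2) = 100000 * (q * l ^ 2) := by ring
  rw [h7] at h6
  have h8 : 1 ≤ q := by
    by_contra hcon
    push Not at hcon
    have : q = 0 := by omega
    rw [this] at h1'
    have : 1 ≤ l ^ 2 := Nat.one_le_pow _ _ hl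
    omega
  have h9 : q / 5 ≤ q := Nat.div_le_self _ _
  omega

/-- the reduction away from the middle -/
lemma ev_theta : ∀ᶠ n : ℕ in atTop,
    Real.exp (-(((Nat.sqrt n / 5 : ℕ) : ℝ) ^ 2 / n)) ≤ 26 / 27 := by
  filter_upwards [ev_ell 100000 (by norm_num), eventually_gt_atTop 1] with n h1 h2
  have h1' : 100000 * ell n ^ 2 ≤ Nat.sqrt n := by exact_mod_cast h1
  have hl : 1 ≤ ell n := by unfold ell; omega
  have hq : 100000 ≤ Nat.sqrt n := by nlinarith
  have hn : (0 : ℝ) < n := by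
    have : 0 < n := by omega
    exact_mod_cast this
  have h3 := Nat.lt_succ_sqrt n
  have h4 : (n : ℝ) < ((Nat.sqrt n : ℝ) + 1) * ((Nat.sqrt n : ℝ) + 1) := by exact_mod_cast h3
  have h5 : ((Nat.sqrt n : ℝ) - 4) / 5 ≤ ((Nat.sqrt n / 5 : ℕ) : ℝ) := by
    have : Nat.sqrt n ≤ 5 * (Nat.sqrt n / 5) + 4 := by omega
    have : (Nat.sqrt n : ℝ) ≤ 5 * ((Nat.sqrt n / 5 : ℕ) : ℝ) + 4 := by exact_mod_cast this
    linarith
  have hq' : (100000 : ℝ) ≤ (Nat.sqrt n : ℝ) := by exact_mod_cast hq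
  set q := (Nat.sqrt n : ℝ)
  set s := ((Nat.sqrt n / 5 : ℕ) : ℝ)
  have h6 : 1 / 26 ≤ s ^ 2 / n := by
    rw [le_div_iff₀ hn]
    have h7 : ((q - 4) / 5) ^ 2 ≤ s ^ 2 := pow_le_pow_left₀ (by linarith) h5 2
    nlinarith
  have h8 : 27 / 26 ≤ Real.exp (s ^ 2 / n) := by
    have := Real.add_one_le_exp (s ^ 2 / n)
    linarith
  rw [Real.exp_neg, inv_le_comm₀ (Real.exp_pos _) (by norm_num)]
  norm_num
  exact h8

end Pool.Agent.TH84.UA
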