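import Pool.Agent.TH84.UA.Struct

/-!
# Almost all union-closed families: counting
-/

set_option autoImplicit false

namespace Pool.Agent.TH84.UA

open Finset Filter
open scoped Classical

/-- small subfamilies of any finite type -/
lemma num_type (hNUM : P_NUM) {α : Type} [Fintype α] (s : ℕ) {x : ℝ} (hx : 0 < x) (hx1 : x ≤ 1) :
    ((univ.filter (fun S : Finset α => S.card ≤ s)).card : ℝ) ≤
      Real.exp (s * Real.log (1 / x) + x * (Fintype.card α)) := by
  refine le_trans ?_ (hNUM (Fintype.card α) s x hx hx1)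
  have : (univ.filter (fun S : Finset α => S.card ≤ s)).card ≤
      (univ.filter (fun S : Finset (Fin (Fintype.card α)) => S.card ≤ s)).card := by
    refine Finset.card_le_card_of_injOn (fun S => S.map (Fintype.equivFin α).toEmbedding) ?_ ?_
    · intro S hS
      simp only [Finset.coe_filter, Finset.mem_univ, true_and, Set.mem_setOf_eq] at hS ⊢
      rwa [Finset.card_map]
    · intro S _ S' _ h
      exact Finset.map_injective _ h
  exact_mod_cast this

/-- the real inequality -/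
lemma final_ineq {n r q l N0 P out s' L : ℝ} (hr : r ^ 2 = n) (hr1 : 100000 ≤ r) (hl : 14000 ≤ l)
    (hq1 : r ≤ 3 / 2 * q) (hq0 : 0 < q) (hN0 : 0 < N0) (hP : P ≤ 2 * r * N0)
    (hout : out ≤ 2 * P * (1 / n)) (hs' : s' ≤ P / (q * l ^ 2)) (hs'0 : 0 ≤ s')
    (hlog : Real.log n ≤ l) (hlog0 : 0 ≤ Real.log n)
    (hL : L ≤ 399 / 400 * N0) :
    Real.log 2 * out + (s' * (2 * Real.log n) + 1 / n ^ 2 * (P * n)) + Real.log 2 * L ≤
      Real.log 2 * ((1 - 1 / 800) * N0) := by
  have hn : 0 < n := by rw [← hr]; positivity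
  have hr0 : 0 < r := by linarith
  have hl0 : 0 < l := by linarith
  have h2a := Real.log_two_gt_d9
  have h2b := Real.log_two_lt_d9
  have e1 : out ≤ 4 * N0 / r := by
    refine hout.trans ?_
    calc 2 * P * (1 / n) ≤ 2 * (2 * r * N0) * (1 / n) :=
          mul_le_mul_of_nonneg_right (by linarith) (by positivity)
      _ = 4 * N0 / r := by rw [← hr]; field_simp; ring
  have e2 : s' ≤ 3 * N0 / l ^ 2 := by
    refine hs'.trans ?_
    rw [div_le_div_iff₀ (by positivity) (by positivity)]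
    have : P ≤ 3 * q * N0 := by nlinarith
    nlinarith [sq_nonneg l]
  have e3 : s' * (2 * Real.log n) ≤ 6 * N0 / l := by
    calc s' * (2 * Real.log n) ≤ (3 * N0 / l ^ 2) * (2 * l) :=
          mul_le_mul e2 (by linarith) (by positivity) (by positivity)
      _ = 6 * N0 / l := by field_simp; ring
  have e4 : 1 / n ^ 2 * (P * n) ≤ 2 * N0 / r := by
    calc 1 / n ^ 2 * (P * n) = P * (1 / n) := by field_simp
      _ ≤ (2 * r * N0) * (1 / n) := mul_le_mul_of_nonneg_right hP (by positivity)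
      _ = 2 * N0 / r := by rw [← hr]; field_simp
  have e5 : 4 * N0 / r ≤ N0 * (4 / 100000) := by
    rw [div_le_iff₀ hr0]
    nlinarith
  have e6 : 2 * N0 / r ≤ N0 * (2 / 100000) := by
    rw [div_le_iff₀ hr0]
    nlinarith
  have e7 : 6 * N0 / l ≤ N0 * (6 / 14000) := by
    rw [div_le_iff₀ hl0]
    nlinarith
  have e8 : Real.log 2 * out ≤ N0 * (4 / 100000) := by
    calc Real.log 2 * out ≤ Real.log 2 * (N0 * (4 / 100000)) :=
          mul_le_mul_of_nonneg_left (by linarith) (by linarith)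
      _ ≤ 1 * (N0 * (4 / 100000)) := mul_le_mul_of_nonneg_right (by linarith) (by positivity)
      _ = _ := one_mul _
  have e9 : Real.log 2 * L ≤ Real.log 2 * (399 / 400 * N0) :=
    mul_le_mul_of_nonneg_left hL (by linarith)
  have e10 : (693 / 1000) * (1 / 800) * N0 ≤ Real.log 2 * (1 / 800) * N0 := by
    refine mul_le_mul_of_nonneg_right ?_ hN0.le
    linarith
  linarith

theorem t_ALMOST (hKRAFT : P_KRAFT) (hGREEDY : P_GREEDY) (hCHAIN : P_CHAIN) (hTAIL : P_TAIL)
    (hMID : P_MID) (hTHETA : P_THETA) (hWPOS : P_WPOS) (hNUM : P_NUM) : P_ALMOST := by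
  refine ⟨1 / 800, by norm_num, ?_⟩
  filter_upwards [struct hCHAIN hTHETA hWPOS, ev_par, ev_ell 100000 (by norm_num),
    Pool.Agent.TH84.UC.ev_log 14000, eventually_gt_atTop 1] with n hst hpar hell hlog hn1
  set q := Nat.sqrt n with hq
  set R := q * ell n with hR
  set T := q * ell n ^ 2 with hTdef
  set m := n / 2 with hm
  have hn0 : 0 < n := by omega
  have hnr : (0 : ℝ) < n := by exact_mod_cast hn0
  set N0 : ℝ := (n.choose m : ℝ) with hN0
  have hN0p : 0 < N0 := by
    rw [hN0]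
    exact_mod_cast Nat.choose_pos (Nat.div_le_self n 2)
  set a := m - R with ha
  set b := m + R with hb
  have ha0 : 0 < a := by omega
  have hl1 : 1 ≤ ell n := by unfold ell; omega
  have hell' : 100000 * ell n ^ 2 ≤ q := by exact_mod_cast hell
  have hq1 : 100000 ≤ q := by nlinarith
  have hT0 : 0 < T := by rw [hTdef]; positivity
  set L := ⌊(399 / 400 : ℝ) * N0⌋₊ with hL
  set OUT := univ.filter (fun A : Finset (Fin n) => ¬ (a ≤ A.card ∧ A.card ≤ b)) with hOUT
  set SS := univ.filter (fun S : Finset (Finset (Fin n) × Fin n) => S.card ≤ 2 ^ n / T) with hSS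
  set cls : Finset (Finset (Fin n)) → Finset (Finset (Fin n) × Fin n) →
      Finset (Finset (Finset (Fin n))) := fun O S =>
    univ.filter (fun F : Finset (Finset (Fin n)) => UC F ∧
      F.filter (fun A => ¬ (a ≤ A.card ∧ A.card ≤ b)) = O ∧ (∀ A ∈ F, A ∉ bl S) ∧
      (unk F (bl S) a b).card ≤ L) with hcls
  set bad := univ.filter (fun F : Finset (Finset (Fin n)) => UC F ∧
    10 * ∑ A ∈ F, (2 * (A.card : ℝ) - n) < (n : ℝ) * N0) with hbad
  have hcover : bad ⊆ OUT.powerset.biUnion (fun O => SS.biUnion (fun S => cls O S)) := by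
    intro F hF
    rw [hbad, Finset.mem_filter] at hF
    obtain ⟨-, hUC, hW⟩ := hF
    obtain ⟨S, hS1, hS2, hS3⟩ := hGREEDY n T F hT0
    rw [Finset.mem_biUnion]
    refine ⟨F.filter (fun A => ¬ (a ≤ A.card ∧ A.card ≤ b)), ?_, ?_⟩
    · rw [Finset.mem_powerset, hOUT]
      intro A hA
      rw [Finset.mem_filter] at hA ⊢
      exact ⟨Finset.mem_univ _, hA.2⟩
    · rw [Finset.mem_biUnion]
      refine ⟨S, ?_, ?_⟩
      · rw [hSS, Finset.mem_filter]
        refine ⟨Finset.mem_univ _, ?_⟩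
        rw [Nat.le_div_iff_mul_le hT0, mul_comm]
        exact hS2
      · rw [hcls]
        simp only [Finset.mem_filter, Finset.mem_univ, true_and]
        refine ⟨hUC, not_mem_of_bl hS1, ?_⟩
        rw [hL]
        apply Nat.le_floor
        by_contra hcon
        push Not at hcon
        have := hst F S hUC hS1 hS3 hcon.le
        linarith
  have hcard : bad.card ≤ 2 ^ OUT.card * (SS.card * 2 ^ L) := by
    calc bad.card ≤ _ := Finset.card_le_card hcover
      _ ≤ ∑ O ∈ OUT.powerset, (SS.biUnion (fun S => cls O S)).card := Finset.card_biUnion_le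
      _ ≤ ∑ O ∈ OUT.powerset, ∑ S ∈ SS, (cls O S).card :=
          Finset.sum_le_sum fun O _ => Finset.card_biUnion_le
      _ ≤ ∑ O ∈ OUT.powerset, ∑ S ∈ SS, 2 ^ L :=
          Finset.sum_le_sum fun O _ => Finset.sum_le_sum fun S _ =>
            hKRAFT n a b L (bl S) O ha0
      _ = 2 ^ OUT.card * (SS.card * 2 ^ L) := by
          rw [Finset.sum_const, Finset.sum_const, Finset.card_powerset, smul_eq_mul, smul_eq_mul]
  -- real bounds
  set x : ℝ := 1 / (n : ℝ) ^ 2 with hx
  have hxp : 0 < x := by positivity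
  have hn1' : (1 : ℝ) ≤ n := by exact_mod_cast hn0
  have hx1 : x ≤ 1 := by
    rw [hx, div_le_one (by positivity)]
    nlinarith
  have hSSb := num_type hNUM (α := Finset (Fin n) × Fin n) (2 ^ n / T) hxp hx1
  have hcardT : (Fintype.card (Finset (Fin n) × Fin n) : ℝ) = 2 ^ n * n := by
    rw [Fintype.card_prod, Fintype.card_finset, Fintype.card_fin]
    push_cast
    ring
  rw [hcardT] at hSSb
  have hlogx : Real.log (1 / x) = 2 * Real.log n := by
    rw [hx, one_div_one_div, Real.log_pow]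
    norm_num
  rw [hlogx] at hSSb
  have hsq : Real.sqrt n ^ 2 = n := Real.sq_sqrt hnr.le
  have hqs : (q : ℝ) ≤ Real.sqrt n := by
    apply Real.le_sqrt_of_sq_le
    have : q * q ≤ n := Nat.sqrt_le n
    have : (q : ℝ) * q ≤ n := by exact_mod_cast this
    nlinarith
  have hqs2 : Real.sqrt n ≤ (q : ℝ) + 1 := by
    rw [Real.sqrt_le_left (by positivity)]
    have := Nat.lt_succ_sqrt n
    have : (n : ℝ) < ((Nat.sqrt n : ℝ) + 1) * ((Nat.sqrt n : ℝ) + 1) := by exact_mod_cast this
    nlinarith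
  have hq1' : (100000 : ℝ) ≤ q := by exact_mod_cast hq1
  have hlell : Real.log n ≤ ell n := log_le_ell hn0
  have hTAIL' := hTAIL n R hn0 (by omega)
  have hexp : Real.exp (-(2 * (R : ℝ) ^ 2 / n)) ≤ 1 / n := by
    have h1 : Real.log n ≤ 2 * (R : ℝ) ^ 2 / n := by
      refine hlell.trans ?_
      rw [le_div_iff₀ hnr, hR]
      push_cast
      have hl1' : (1 : ℝ) ≤ ell n := by exact_mod_cast hl1
      have h2 : (n : ℝ) ≤ 2 * (q : ℝ) ^ 2 := by
        rw [← hsq]
        nlinarith [Real.sqrt_nonneg (n : ℝ)]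
      calc (ell n : ℝ) * n ≤ (ell n : ℝ) * (2 * (q : ℝ) ^ 2) :=
            mul_le_mul_of_nonneg_left h2 (by linarith)
        _ ≤ (ell n : ℝ) ^ 2 * (2 * (q : ℝ) ^ 2) := by
            refine mul_le_mul_of_nonneg_right ?_ (by positivity)
            nlinarith
        _ = _ := by ring
    calc Real.exp (-(2 * (R : ℝ) ^ 2 / n)) ≤ Real.exp (-Real.log n) :=
          Real.exp_le_exp.mpr (by linarith)
      _ = 1 / n := by rw [Real.exp_neg, Real.exp_log hnr, one_div]
  have hout : ((OUT.card : ℕ) : ℝ) ≤ 2 * 2 ^ n * (1 / n) := by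
    refine hTAIL'.trans ?_
    exact mul_le_mul_of_nonneg_left hexp (by positivity)
  have hs' : ((2 ^ n / T : ℕ) : ℝ) ≤ 2 ^ n / ((q : ℝ) * (ell n : ℝ) ^ 2) := by
    have h1 : ((2 ^ n / T : ℕ) : ℝ) ≤ ((2 ^ n : ℕ) : ℝ) / T := Nat.cast_div_le
    rw [hTdef] at h1
    push_cast at h1
    exact h1
  have hfin := final_ineq (n := n) (r := Real.sqrt n) (q := q) (l := ell n) (N0 := N0)
    (P := 2 ^ n) (out := OUT.card) (s' := ((2 ^ n / T : ℕ) : ℝ)) (L := L) hsq (by linarith)
    (by linarith) (by linarith) (by linarith) hN0p (hMID n hn0) hout hs' (by positivity) hlell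
    (by linarith) (Nat.floor_le (by positivity))
  have hSS2 : (SS.card : ℝ) ≤ Real.exp (((2 ^ n / T : ℕ) : ℝ) * (2 * Real.log n) +
      1 / (n : ℝ) ^ 2 * (2 ^ n * n)) := hSSb
  calc ((bad.card : ℕ) : ℝ) ≤ ((2 ^ OUT.card * (SS.card * 2 ^ L) : ℕ) : ℝ) := by
        exact_mod_cast hcard
    _ = (2 : ℝ) ^ OUT.card * ((SS.card : ℝ) * 2 ^ L) := by push_cast; ring
    _ ≤ (2 : ℝ) ^ OUT.card * (Real.exp (((2 ^ n / T : ℕ) : ℝ) * (2 * Real.log n) +
      1 / (n : ℝ) ^ 2 * (2 ^ n * n)) * 2 ^ L) := by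
        refine mul_le_mul_of_nonneg_left ?_ (by positivity)
        exact mul_le_mul_of_nonneg_right hSS2 (by positivity)
    _ = Real.exp (Real.log 2 * OUT.card + (((2 ^ n / T : ℕ) : ℝ) * (2 * Real.log n) +
      1 / (n : ℝ) ^ 2 * (2 ^ n * n)) + Real.log 2 * L) := by
        have e1 : ∀ k : ℕ, Real.exp (Real.log 2 * k) = (2 : ℝ) ^ k := by
          intro k
          rw [← Real.rpow_natCast, Real.rpow_def_of_pos (by norm_num)]
        have e2 : ∀ A B C : ℝ, Real.exp (A + B + C) = Real.exp A * (Real.exp B * Real.exp C) := by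
          intro A B C
          rw [Real.exp_add, Real.exp_add, mul_assoc]
        rw [e2, e1, e1]
    _ ≤ Real.exp (Real.log 2 * ((1 - 1 / 800) * N0)) := Real.exp_le_exp.mpr hfin
    _ = (2 : ℝ) ^ ((1 - 1 / 800) * N0) := by
        rw [Real.rpow_def_of_pos (by norm_num)]

end Pool.Agent.TH84.UA
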