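import Mathlib

/-!
# Plan: almost all union-closed families on `[n]`

A uniformly random union-closed family on `Fin n` has, with probability `1 - 2 ^ (- c * C(n, n/2))`,
large average member size. Counting by a certificate, sequential decoding and random chains.
-/

set_option autoImplicit false

namespace Pool.Agent.TH84.UA

open Finset Filter
open scoped Classical

/-- union-closed families -/
def UC {n : ℕ} (F : Finset (Finset (Fin n))) : Prop := ∀ A ∈ F, ∀ B ∈ F, A ∪ B ∈ F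

/-- no member of `F` properly inside `D` contains the element `y` of `D` -/
def Unc {n : ℕ} (F : Finset (Finset (Fin n))) (D : Finset (Fin n)) (y : Fin n) : Prop :=
  y ∈ D ∧ ∀ A ∈ F, A ⊂ D → y ∉ A

/-- the sets blocked by the pairs in `S` -/
noncomputable def bl {n : ℕ} (S : Finset (Finset (Fin n) × Fin n)) : Finset (Finset (Fin n)) :=
  univ.filter (fun A => ∃ z ∈ S, A ⊂ z.1 ∧ z.2 ∈ A)

/-- the unknown sets: in the window `[a, b]`, not covered by the members properly inside, not in `K` -/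
noncomputable def unk {n : ℕ} (F K : Finset (Finset (Fin n))) (a b : ℕ) : Finset (Finset (Fin n)) :=
  univ.filter (fun D => a ≤ D.card ∧ D.card ≤ b ∧ (∃ y, Unc F D y) ∧ D ∉ K)

/-- sequential decoding -/
def P_KRAFT : Prop := ∀ (n a b L : ℕ) (K O : Finset (Finset (Fin n))), 0 < a →
  (univ.filter (fun F : Finset (Finset (Fin n)) => UC F ∧
    F.filter (fun A => ¬ (a ≤ A.card ∧ A.card ≤ b)) = O ∧ (∀ A ∈ F, A ∉ K) ∧
    (unk F K a b).card ≤ L)).card ≤ 2 ^ L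

/-- certificates -/
def P_GREEDY : Prop := ∀ (n T : ℕ) (F : Finset (Finset (Fin n))), 0 < T →
  ∃ S : Finset (Finset (Fin n) × Fin n), (∀ z ∈ S, Unc F z.1 z.2) ∧ T * S.card ≤ 2 ^ n ∧
    ∀ D y, Unc F D y → (univ.filter (fun A => A ∉ bl S ∧ A ⊂ D ∧ y ∈ A)).card ≤ T

/-- random chains: `π` is the probability that a random maximal chain meets `V` -/
def P_CHAIN : Prop := ∀ (n a b T : ℕ) (V : Finset (Finset (Fin n))), 0 < a → a ≤ b →
  (∀ D ∈ V, a ≤ D.card ∧ D.card ≤ b) →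
  (∀ D ∈ V, ∃ y ∈ D, (V.filter (fun A => A ⊂ D ∧ y ∈ A)).card ≤ T) →
  ∃ π : ℝ, 0 ≤ π ∧ π ≤ 1 ∧
    (1 - ((b : ℝ) - a + T) / a) * ∑ A ∈ V, 1 / (n.choose A.card : ℝ) ≤ π ∧
    (∀ (k : ℕ) (X : Finset (Finset (Fin n))), b < k →
      (∀ D ∈ X, D.card = k ∧ ∃ y ∈ D, (V.filter (fun A => A ⊂ D ∧ y ∈ A)).card ≤ T) →
      (1 - ((k : ℝ) - a + T) / a) * X.card ≤ (1 - π) * (n.choose k : ℝ)) ∧
    (∀ (k : ℕ) (X : Finset (Finset (Fin n))), k < a → (∀ A ∈ X, A.card = k) →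
      (∀ D ∈ V, ∃ y ∈ D, ∀ A ∈ X, A ⊂ D → y ∉ A) →
      (X.card : ℝ) ≤ (1 - π + ((b : ℝ) - k) / a) * (n.choose k : ℝ))

/-- few sets far from the middle -/
def P_TAIL : Prop := ∀ n R : ℕ, 0 < n → R ≤ n / 2 →
  ((univ.filter (fun A : Finset (Fin n) => ¬ (n / 2 - R ≤ A.card ∧ A.card ≤ n / 2 + R))).card : ℝ) ≤
    2 * 2 ^ n * Real.exp (-(2 * (R : ℝ) ^ 2 / n))

/-- the middle binomial coefficient -/
def P_MID : Prop := ∀ n : ℕ, 0 < n → (2 : ℝ) ^ n ≤ 2 * Real.sqrt n * (n.choose (n / 2) : ℝ)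

/-- binomial coefficients away from the middle -/
def P_THETA : Prop := ∀ n s k : ℕ, 0 < n → s + 1 ≤ n / 2 → ¬ (n / 2 - s ≤ k ∧ k ≤ n / 2 + s) →
  (n.choose k : ℝ) ≤ Real.exp (-((s : ℝ) ^ 2 / n)) * (n.choose (n / 2) : ℝ)

/-- a natural number slightly larger than `log n` -/
def ell (n : ℕ) : ℕ := Nat.log 2 n + 1

/-- almost all sets above the middle and few sets below it: large average size -/
def P_WPOS : Prop := ∀ᶠ n : ℕ in atTop, ∀ F : Finset (Finset (Fin n)),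
  (∀ k, n / 2 + Nat.sqrt n / 5 < k → k ≤ n / 2 + Nat.sqrt n * ell n →
    6 * (univ.filter (fun A : Finset (Fin n) => A.card = k ∧ A ∉ F)).card ≤ n.choose k) →
  (∀ k, n / 2 - Nat.sqrt n * ell n ≤ k → k < n / 2 - Nat.sqrt n / 5 →
    6 * (F.filter (fun A => A.card = k)).card ≤ n.choose k) →
  (n : ℝ) * (n.choose (n / 2) : ℝ) ≤ 10 * ∑ A ∈ F, (2 * (A.card : ℝ) - n)

/-- the number of small subfamilies -/
def P_NUM : Prop := ∀ (N s : ℕ) (x : ℝ), 0 < x → x ≤ 1 →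
  ((univ.filter (fun S : Finset (Fin N) => S.card ≤ s)).card : ℝ) ≤
    Real.exp (s * Real.log (1 / x) + x * N)

/-- the theorem -/
def P_ALMOST : Prop := ∃ c : ℝ, 0 < c ∧ ∀ᶠ n : ℕ in atTop,
  ((univ.filter (fun F : Finset (Finset (Fin n)) => UC F ∧
    10 * ∑ A ∈ F, (2 * (A.card : ℝ) - n) < (n : ℝ) * (n.choose (n / 2) : ℝ))).card : ℝ) ≤
    (2 : ℝ) ^ ((1 - c) * (n.choose (n / 2) : ℝ))

/-- many union-closed families -/
def P_MANY : Prop := ∀ n : ℕ,
  2 ^ n.choose (n / 2) ≤ (univ.filter (fun F : Finset (Finset (Fin n)) => UC F)).card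

end Pool.Agent.TH84.UA
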