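import Pool.Agent.TH84.UA.Asm

/-!
# Almost all union-closed families: many unknown sets force a large average size
-/

set_option autoImplicit false

namespace Pool.Agent.TH84.UA

open Finset Filter
open scoped Classical

lemma choose_pos' {n : ℕ} (A : Finset (Fin n)) : (0 : ℝ) < (n.choose A.card : ℝ) := by
  have : A.card ≤ n := by simpa using Finset.card_le_univ A
  exact_mod_cast Nat.choose_pos this

/-- numeric core -/
lemma numeric {N x h h' th e e' π π' : ℝ} (hN : 0 < N) (hx : 399 / 400 * N ≤ x)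
    (hle : x ≤ N * h' + th * N * (h - h')) (hth : th ≤ 26 / 27) (hth0 : 0 ≤ th)
    (he : e ≤ 1 / 1000) (he' : e' ≤ 1 / 1000) (hh' : 0 ≤ h') (hhh : h' ≤ h)
    (h1 : (1 - e) * h ≤ π) (h2 : (1 - e') * h' ≤ π') (hπ : π ≤ 1) (hπ' : π' ≤ 1) :
    1 - π' ≤ 1 / 10 := by
  have a1 : 999 / 1000 * h ≤ 1 := by nlinarith
  have a2 : 999 / 1000 * h' ≤ π' := by nlinarith
  have a3 : x ≤ N * ((1 - th) * h' + th * h) := by linarith
  have a4 : 399 / 400 ≤ (1 - th) * h' + th * h := by
    have : 399 / 400 * N ≤ N * ((1 - th) * h' + th * h) := hx.trans a3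
    have h5 : N * (399 / 400) ≤ N * ((1 - th) * h' + th * h) := by linarith
    exact le_of_mul_le_mul_left h5 hN
  have a5 : 999 / 1000 * (399 / 400) ≤ (1 - th) * π' + th := by nlinarith
  nlinarith

theorem struct (hCHAIN : P_CHAIN) (hTHETA : P_THETA) (hWPOS : P_WPOS) :
    ∀ᶠ n : ℕ in atTop, ∀ (F : Finset (Finset (Fin n))) (S : Finset (Finset (Fin n) × Fin n)),
      UC F → (∀ z ∈ S, Unc F z.1 z.2) →
      (∀ D y, Unc F D y → (univ.filter (fun A => A ∉ bl S ∧ A ⊂ D ∧ y ∈ A)).card ≤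
        Nat.sqrt n * ell n ^ 2) →
      (399 / 400 : ℝ) * (n.choose (n / 2) : ℝ) ≤
        ((unk F (bl S) (n / 2 - Nat.sqrt n * ell n) (n / 2 + Nat.sqrt n * ell n)).card : ℝ) →
      (n : ℝ) * (n.choose (n / 2) : ℝ) ≤ 10 * ∑ A ∈ F, (2 * (A.card : ℝ) - n) := by
  filter_upwards [ev_par, ev_theta, hWPOS, eventually_gt_atTop 1] with n hpar hth hW hn1
  intro F S hUC hS hT hbig
  set q := Nat.sqrt n with hq
  set R := q * ell n with hR
  set T := q * ell n ^ 2 with hTdef
  set s := q / 5 with hs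
  set m := n / 2 with hm
  have hn0 : 0 < n := by omega
  set N0 : ℝ := (n.choose m : ℝ) with hN0
  have hN0p : 0 < N0 := by
    rw [hN0]
    exact_mod_cast Nat.choose_pos (Nat.div_le_self n 2)
  set a := m - R with ha
  set b := m + R with hb
  set V := unk F (bl S) a b with hV
  have hsR : s ≤ R := by
    rw [hs, hR]
    have : 1 ≤ ell n := by unfold ell; omega
    calc q / 5 ≤ q := Nat.div_le_self _ _
      _ = q * 1 := (mul_one _).symm
      _ ≤ q * ell n := Nat.mul_le_mul_left _ this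
  have hVmem : ∀ D ∈ V, a ≤ D.card ∧ D.card ≤ b ∧ (∃ y, Unc F D y) ∧ D ∉ bl S := by
    intro D hD
    rw [hV] at hD
    unfold unk at hD
    rw [Finset.mem_filter] at hD
    exact hD.2
  have hblk : ∀ (V' : Finset (Finset (Fin n))), V' ⊆ V → ∀ D y, Unc F D y →
      (V'.filter (fun A => A ⊂ D ∧ y ∈ A)).card ≤ T := by
    intro V' hV' D y hy
    refine le_trans (Finset.card_le_card ?_) (hT D y hy)
    intro A hA
    rw [Finset.mem_filter] at hA ⊢
    exact ⟨Finset.mem_univ _, (hVmem A (hV' hA.1)).2.2.2, hA.2⟩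
  -- the whole window
  have ha0 : 0 < a := by omega
  have hab : a ≤ b := by omega
  obtain ⟨π, hπ0, hπ1, hπ, -, -⟩ := hCHAIN n a b T V ha0 hab
    (fun D hD => ⟨(hVmem D hD).1, (hVmem D hD).2.1⟩)
    (fun D hD => by
      obtain ⟨y, hy⟩ := (hVmem D hD).2.2.1
      exact ⟨y, hy.1, hblk V (Finset.Subset.refl _) D y hy⟩)
  -- the middle
  set V' := V.filter (fun A => m - s ≤ A.card ∧ A.card ≤ m + s) with hV'
  have hV'V : V' ⊆ V := Finset.filter_subset _ _
  have ha0' : 0 < m - s := by omega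
  obtain ⟨π', hπ0', hπ1', hπ', hup, hdown⟩ := hCHAIN n (m - s) (m + s) T V' ha0' (by omega)
    (fun D hD => by
      rw [hV', Finset.mem_filter] at hD
      exact hD.2)
    (fun D hD => by
      obtain ⟨y, hy⟩ := (hVmem D (hV'V hD)).2.2.1
      exact ⟨y, hy.1, hblk V' hV'V D y hy⟩)
  -- casts
  have hca : (a : ℝ) = (m : ℝ) - R := by rw [ha]; push_cast [Nat.cast_sub (show R ≤ m by omega)]; ring
  have hcb : (b : ℝ) = (m : ℝ) + R := by rw [hb]; push_cast; ring
  have hcas : ((m - s : ℕ) : ℝ) = (m : ℝ) - s := by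
    push_cast [Nat.cast_sub (show s ≤ m by omega)]; ring
  have hcbs : ((m + s : ℕ) : ℝ) = (m : ℝ) + s := by push_cast; ring
  have hpar' : 2000 * (2 * (R : ℝ) + T + 2 * s + 2) ≤ m := by exact_mod_cast hpar
  have hR0 : (0 : ℝ) ≤ R := by positivity
  have hT0 : (0 : ℝ) ≤ T := by positivity
  have hs0 : (0 : ℝ) ≤ s := by positivity
  have he : ((b : ℝ) - a + T) / a ≤ 1 / 1000 := by
    rw [hca, hcb, div_le_div_iff₀ (by linarith) (by norm_num)]
    linarith
  have he' : (((m + s : ℕ) : ℝ) - ((m - s : ℕ) : ℝ) + T) / ((m - s : ℕ) : ℝ) ≤ 1 / 1000 := by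
    rw [hcas, hcbs, div_le_div_iff₀ (by linarith) (by norm_num)]
    linarith
  -- the size of V
  set h := ∑ A ∈ V, 1 / (n.choose A.card : ℝ) with hh
  set h' := ∑ A ∈ V', 1 / (n.choose A.card : ℝ) with hh'
  have hsplit : h = h' + ∑ A ∈ V.filter (fun A => ¬ (m - s ≤ A.card ∧ A.card ≤ m + s)),
      1 / (n.choose A.card : ℝ) := by
    rw [hh, hh', hV', Finset.sum_filter_add_sum_filter_not]
  have hcardV : (V.card : ℝ) = (V'.card : ℝ) +
      ((V.filter (fun A => ¬ (m - s ≤ A.card ∧ A.card ≤ m + s))).card : ℝ) := by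
    rw [hV']
    exact_mod_cast (Finset.card_filter_add_card_filter_not (s := V)
      (fun A => m - s ≤ A.card ∧ A.card ≤ m + s)).symm
  set th := Real.exp (-(((q / 5 : ℕ) : ℝ) ^ 2 / n)) with hthdef
  have hth0 : 0 ≤ th := (Real.exp_pos _).le
  have hb1 : (V'.card : ℝ) ≤ N0 * h' := by
    rw [hh', Finset.mul_sum]
    calc (V'.card : ℝ) = ∑ A ∈ V', (1 : ℝ) := by rw [Finset.sum_const, nsmul_eq_mul, mul_one]
      _ ≤ _ := by
          refine Finset.sum_le_sum fun A _ => ?_
          have hp := choose_pos' A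
          rw [mul_one_div, le_div_iff₀ hp, one_mul, hN0]
          exact_mod_cast Nat.choose_le_middle _ _
  have hb2 : ((V.filter (fun A => ¬ (m - s ≤ A.card ∧ A.card ≤ m + s))).card : ℝ) ≤
      th * N0 * (h - h') := by
    have e : h - h' = ∑ A ∈ V.filter (fun A => ¬ (m - s ≤ A.card ∧ A.card ≤ m + s)),
      1 / (n.choose A.card : ℝ) := by rw [hsplit]; ring
    rw [e, Finset.mul_sum]
    calc ((V.filter (fun A => ¬ (m - s ≤ A.card ∧ A.card ≤ m + s))).card : ℝ) =
        ∑ A ∈ V.filter (fun A => ¬ (m - s ≤ A.card ∧ A.card ≤ m + s)), (1 : ℝ) := by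
          rw [Finset.sum_const, nsmul_eq_mul, mul_one]
      _ ≤ _ := by
          refine Finset.sum_le_sum fun A hA => ?_
          rw [Finset.mem_filter] at hA
          have hp := choose_pos' A
          rw [mul_one_div, le_div_iff₀ hp, one_mul, hN0, hthdef]
          exact hTHETA n s A.card hn0 (by omega) hA.2
  have hh'0 : 0 ≤ h' := by
    rw [hh']
    exact Finset.sum_nonneg fun A _ => by positivity
  have hhh : h' ≤ h := by
    rw [hsplit]
    have : 0 ≤ ∑ A ∈ V.filter (fun A => ¬ (m - s ≤ A.card ∧ A.card ≤ m + s)),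
      1 / (n.choose A.card : ℝ) := Finset.sum_nonneg fun A _ => by positivity
    linarith
  have hπs : 1 - π' ≤ 1 / 10 :=
    numeric (N := N0) (x := (V.card : ℝ)) (h := h) (h' := h') (th := th) hN0p hbig
      (by rw [hcardV]; linarith) hth hth0 he he' hh'0 hhh hπ hπ' hπ1 hπ1'
  -- conclusion
  apply hW F
  · intro k hk1 hk2
    have hX := hup k (univ.filter (fun A : Finset (Fin n) => A.card = k ∧ A ∉ F)) hk1 (by
      intro D hD
      rw [Finset.mem_filter] at hD
      refine ⟨hD.2.1, ?_⟩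
      have hne : D.Nonempty := by
        rw [← Finset.card_pos, hD.2.1]
        omega
      have hex : ∃ y, Unc F D y := by
        by_contra hcon
        exact hD.2.2 (mem_of_covered hUC hne hcon)
      obtain ⟨y, hy⟩ := hex
      exact ⟨y, hy.1, hblk V' hV'V D y hy⟩)
    have hkR : (k : ℝ) ≤ (m : ℝ) + R := by exact_mod_cast hk2
    have hc : ((k : ℝ) - ((m - s : ℕ) : ℝ) + T) / ((m - s : ℕ) : ℝ) ≤ 1 / 1000 := by
      rw [hcas, div_le_div_iff₀ (by linarith) (by norm_num)]
      linarith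
    set X := (univ.filter (fun A : Finset (Fin n) => A.card = k ∧ A ∉ F)).card with hXdef
    have hCk : (0 : ℝ) ≤ (n.choose k : ℝ) := by positivity
    have hX0 : (0 : ℝ) ≤ (X : ℝ) := by positivity
    have h6 : (6 : ℝ) * X ≤ n.choose k := by
      have h7 : (999 / 1000 : ℝ) * X ≤ 1 / 10 * (n.choose k : ℝ) := by
        calc (999 / 1000 : ℝ) * X ≤
            (1 - ((k : ℝ) - ((m - s : ℕ) : ℝ) + T) / ((m - s : ℕ) : ℝ)) * X := by
              refine mul_le_mul_of_nonneg_right ?_ hX0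
              linarith
          _ ≤ _ := hX
          _ ≤ _ := mul_le_mul_of_nonneg_right hπs hCk
      linarith
    exact_mod_cast h6
  · intro k hk1 hk2
    have hX := hdown k (F.filter (fun A => A.card = k)) hk2 (by
      intro A hA
      exact (Finset.mem_filter.mp hA).2) (by
      intro D hD
      obtain ⟨y, hy⟩ := (hVmem D (hV'V hD)).2.2.1
      refine ⟨y, hy.1, fun A hA hAD => ?_⟩
      exact hy.2 A (Finset.mem_filter.mp hA).1 hAD)
    have hkR : (m : ℝ) - R ≤ (k : ℝ) := by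
      rw [← hca]
      exact_mod_cast hk1
    have hc : (((m + s : ℕ) : ℝ) - k) / ((m - s : ℕ) : ℝ) ≤ 1 / 1000 := by
      rw [hcas, hcbs, div_le_div_iff₀ (by linarith) (by norm_num)]
      linarith
    have hCk : (0 : ℝ) ≤ (n.choose k : ℝ) := by positivity
    have h6 : (6 : ℝ) * ((F.filter (fun A => A.card = k)).card : ℝ) ≤ n.choose k := by
      have h7 : ((F.filter (fun A => A.card = k)).card : ℝ) ≤
          (1 / 10 + 1 / 1000) * (n.choose k : ℝ) := by
        refine hX.trans ?_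
        exact mul_le_mul_of_nonneg_right (by linarith) hCk
      linarith
    exact_mod_cast h6

end Pool.Agent.TH84.UA
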